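import Mathlib

/-!
# A face of the cone of nonnegative quadrics with stubborn and non-stubborn interior points

The surface `X ⊂ ℙ³` with the equation `x₁ x₂² + x₀ x₃² + x₀³ = 0` is totally real. The nonnegative
quadrics on `X` which vanish on the line `x₀ = x₁ = 0` form a face of `P_X`. Its relative interior
contains `x₀² + x₁²` and the stubborn quadric `x₀² - 3 x₀ x₁ + x₁²`.
-/

set_option autoImplicit false

open MvPolynomial

namespace Pool.Agent.Results.MP_982b0b_ag.MixedFace

attribute [local instance] MvPolynomial.gradedAlgebra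

section definitions

variable {n : ℕ} (I : Ideal (MvPolynomial (Fin (n + 1)) ℝ))

/-- The real points of the affine cone over the variety `X ⊂ ℙⁿ` with the ideal `I`. -/
def realCone : Set (Fin (n + 1) → ℝ) := {p | ∀ f ∈ I, eval p f = 0}

/-- The complex points of the affine cone over `X`. -/
def complexCone : Set (Fin (n + 1) → ℂ) := {p | ∀ f ∈ I, aeval p f = 0}

/-- `I` is the homogeneous ideal of a totally real variety `X ⊂ ℙⁿ`: it is a homogeneous radical
ideal, and every complex polynomial which vanishes at the real points of the cone over `X` vanishes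
at all its complex points. -/
structure TotallyReal : Prop where
  homogeneous : I.IsHomogeneous (homogeneousSubmodule (Fin (n + 1)) ℝ)
  radical : I.IsRadical
  dense : ∀ F : MvPolynomial (Fin (n + 1)) ℂ,
    (∀ p ∈ realCone I, eval (fun i => (p i : ℂ)) F = 0) → ∀ p ∈ complexCone I, eval p F = 0

/-- The homogeneous coordinate ring `ℝ[X]`. -/
abbrev Coord : Type := MvPolynomial (Fin (n + 1)) ℝ ⧸ I

/-- The graded piece `ℝ[X]_m`. -/
noncomputable def gr (m : ℕ) : Submodule ℝ (Coord I) :=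
  (homogeneousSubmodule (Fin (n + 1)) ℝ m).map (Ideal.Quotient.mkₐ ℝ I).toLinearMap

/-- The value of an element of `ℝ[X]` at a real point of the cone. -/
noncomputable def ev (p : realCone I) : Coord I →ₐ[ℝ] ℝ :=
  Ideal.Quotient.liftₐ I (aeval p.1) fun f hf => p.2 f hf

/-- `F` is a sum of squares of elements of `ℝ[X]_m`. -/
def IsSumSq (m : ℕ) (F : Coord I) : Prop :=
  ∃ (r : ℕ) (G : Fin r → Coord I), (∀ i, G i ∈ gr I m) ∧ F = ∑ i, G i ^ 2

/-- The cone `P_X` of nonnegative quadratic forms, as a subset of `ℝ[X]₂`. -/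
def nonnegCone : Set (gr I 2) := {F | ∀ p : realCone I, 0 ≤ ev I p F}

/-- A nonnegative quadratic form is stubborn if none of its odd powers is a sum of squares. -/
def Stubborn (F : gr I 2) : Prop :=
  F ∈ nonnegCone I ∧ ∀ k : ℕ, Odd k → ¬ IsSumSq I k ((F : Coord I) ^ k)

/-- A face of `P_X`: a convex extreme subset. -/
def IsFace (A : Set (gr I 2)) : Prop := Convex ℝ A ∧ IsExtreme ℝ (nonnegCone I) A

/-- The relative interior, for the usual topology of the finite-dimensional space `ℝ[X]₂`. -/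
noncomputable def relInterior (A : Set (gr I 2)) : Set (gr I 2) :=
  letI : TopologicalSpace (gr I 2) := moduleTopology ℝ (gr I 2)
  intrinsicInterior ℝ A

end definitions

section elimination

/-- the cubic form `x₁ x₂² + x₀ x₃² + x₀³` -/
noncomputable def g (K : Type) [CommRing K] : MvPolynomial (Fin 4) K :=
  X 1 * X 2 ^ 2 + X 0 * X 3 ^ 2 + X 0 ^ 3

/-- the variables other than `x₁` -/
def ι : Fin 3 → Fin 4 := ![0, 2, 3]

theorem elim (K : Type) [CommRing K] (F : MvPolynomial (Fin 4) K) :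
    ∃ (N : ℕ) (F' : MvPolynomial (Fin 3) K), g K ∣ X 2 ^ N * F - rename ι F' := by
  induction F using MvPolynomial.induction_on with
  | C a => exact ⟨0, C a, by simp⟩
  | add F G hF hG =>
    obtain ⟨N1, F1, q1, h1⟩ := hF
    obtain ⟨N2, F2, q2, h2⟩ := hG
    refine ⟨N1 + N2, X 1 ^ N2 * F1 + X 1 ^ N1 * F2, X 2 ^ N2 * q1 + X 2 ^ N1 * q2, ?_⟩
    have e1 : rename ι (X 1 : MvPolynomial (Fin 3) K) = X 2 := by rw [rename_X]; rfl
    rw [map_add, map_mul, map_mul, map_pow, map_pow, e1]
    linear_combination X 2 ^ N2 * h1 + X 2 ^ N1 * h2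
  | mul_X F i hF =>
    obtain ⟨N, F', q, h⟩ := hF
    have e0 : rename ι (X 0 : MvPolynomial (Fin 3) K) = X 0 := by rw [rename_X]; rfl
    have e1 : rename ι (X 1 : MvPolynomial (Fin 3) K) = X 2 := by rw [rename_X]; rfl
    have e2 : rename ι (X 2 : MvPolynomial (Fin 3) K) = X 3 := by rw [rename_X]; rfl
    fin_cases i
    · refine ⟨N, F' * X 0, q * X 0, ?_⟩
      rw [map_mul, e0]
      simp only [Fin.zero_eta, Fin.isValue]
      linear_combination X 0 * h
    · refine ⟨N + 2, F' * (-(X 0 * X 2 ^ 2) - X 0 ^ 3), q * X 2 ^ 2 * X 1 + rename ι F', ?_⟩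
      rw [map_mul, map_sub, map_neg, map_mul, map_pow, map_pow, e0, e2]
      simp only [Fin.mk_one, Fin.isValue]
      rw [g] at h ⊢
      linear_combination X 2 ^ 2 * X 1 * h
    · refine ⟨N, F' * X 1, q * X 2, ?_⟩
      rw [map_mul, e1]
      simp only [Fin.reduceFinMk, Fin.isValue]
      linear_combination X 2 * h
    · refine ⟨N, F' * X 2, q * X 3, ?_⟩
      rw [map_mul, e2]
      simp only [Fin.reduceFinMk, Fin.isValue]
      linear_combination X 3 * h

theorem X_not_dvd_g (K : Type) [Field K] : ¬ (X 2 : MvPolynomial (Fin 4) K) ∣ g K := by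
  rintro ⟨q, hq⟩
  have := congrArg (eval (![1, 0, 0, 0] : Fin 4 → K)) hq
  simp [g] at this

/-- A polynomial over `K` which vanishes at all real zeros of `g` is divisible by `g`. -/
theorem dvd_of_vanish (K : Type) [Field K] [Algebra ℝ K] (F : MvPolynomial (Fin 4) K)
    (hF : ∀ p : Fin 4 → ℝ, eval p (g ℝ) = 0 → eval (fun i => algebraMap ℝ K (p i)) F = 0) :
    g K ∣ F := by
  obtain ⟨N, F', q, h⟩ := elim K F
  have hinj : Function.Injective (algebraMap ℝ K) := (algebraMap ℝ K).injective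
  have hF' : F' = 0 := by
    apply MvPolynomial.funext_set (fun _ => algebraMap ℝ K '' Set.Ioi (0 : ℝ))
    · intro _
      exact (Set.Ioi_infinite (0 : ℝ)).image hinj.injOn
    · intro x hx
      rw [map_zero]
      obtain ⟨r0, hr0, e0⟩ := hx 0 trivial
      obtain ⟨r1, hr1, e1⟩ := hx 1 trivial
      obtain ⟨r2, hr2, e2⟩ := hx 2 trivial
      have hr1' : r1 ≠ 0 := (Set.mem_Ioi.1 hr1).ne'
      obtain ⟨p, hp⟩ : ∃ p : Fin 4 → ℝ, p = ![r0, -(r0 * r2 ^ 2 + r0 ^ 3) / r1 ^ 2, r1, r2] :=
        ⟨_, rfl⟩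
      have hgp : eval p (g ℝ) = 0 := by
        simp only [g, map_add, map_mul, map_pow, eval_X]
        rw [hp]
        simp only [Matrix.cons_val]
        field_simp
        ring
      have h1 := congrArg (eval fun i => algebraMap ℝ K (p i)) h
      have hgK : eval (fun i => algebraMap ℝ K (p i)) (g K) = 0 := by
        have h2 : algebraMap ℝ K (eval p (g ℝ)) = eval (fun i => algebraMap ℝ K (p i)) (g K) := by
          simp only [g, map_add, map_mul, map_pow, eval_X]
        rw [← h2, hgp, map_zero]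
      rw [map_sub, map_mul, map_mul, hF p hgp, hgK, eval_rename, mul_zero, zero_mul, zero_sub,
        neg_eq_zero] at h1
      rw [← h1]
      congr 1
      congr 1
      funext i
      fin_cases i
      · rw [hp]; exact e0.symm
      · rw [hp]; exact e1.symm
      · rw [hp]; exact e2.symm
  rw [hF', map_zero, sub_zero] at h
  have h3 : (X 2 : MvPolynomial (Fin 4) K) ^ N ∣ q :=
    (X_prime).pow_dvd_of_dvd_mul_left N (X_not_dvd_g K) ⟨F, h.symm⟩
  obtain ⟨q', hq'⟩ := h3
  refine ⟨q', ?_⟩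
  have h4 : (X 2 : MvPolynomial (Fin 4) K) ^ N * F = X 2 ^ N * (g K * q') := by
    rw [h, hq']; ring
  exact mul_left_cancel₀ (pow_ne_zero _ (X_ne_zero _)) h4

end elimination

/-- the ideal of the surface -/
noncomputable def I : Ideal (MvPolynomial (Fin (3 + 1)) ℝ) := Ideal.span {g ℝ}

theorem mem_realCone (p : Fin 4 → ℝ) : p ∈ realCone I ↔
    p 1 * p 2 ^ 2 + p 0 * p 3 ^ 2 + p 0 ^ 3 = 0 := by
  have e : eval p (g ℝ) = p 1 * p 2 ^ 2 + p 0 * p 3 ^ 2 + p 0 ^ 3 := by
    simp only [g, map_add, map_mul, map_pow, eval_X]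
  rw [← e]
  constructor
  · intro h
    exact h _ (Ideal.mem_span_singleton_self _)
  · intro h f hf
    obtain ⟨q, rfl⟩ := Ideal.mem_span_singleton.1 hf
    rw [map_mul, h, zero_mul]

theorem g_homog : (g ℝ).IsHomogeneous 3 := by
  have hX : ∀ v : Fin 4, (X v : MvPolynomial (Fin 4) ℝ).IsHomogeneous 1 :=
    fun v => isHomogeneous_X ℝ v
  have h1 : (X 1 * X 2 ^ 2 : MvPolynomial (Fin 4) ℝ).IsHomogeneous 3 := (hX 1).mul ((hX 2).pow 2)
  have h2 : (X 0 * X 3 ^ 2 : MvPolynomial (Fin 4) ℝ).IsHomogeneous 3 := (hX 0).mul ((hX 3).pow 2)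
  have h3 : (X 0 ^ 3 : MvPolynomial (Fin 4) ℝ).IsHomogeneous 3 := (hX 0).pow 3
  exact (h1.add h2).add h3

theorem totallyReal : TotallyReal I := by
  refine ⟨?_, ?_, ?_⟩
  · apply Ideal.homogeneous_span
    intro x hx
    rw [Set.mem_singleton_iff] at hx
    exact ⟨3, by rw [hx]; exact g_homog⟩
  · intro f hf
    obtain ⟨m, hm⟩ := hf
    rw [I, Ideal.mem_span_singleton]
    apply dvd_of_vanish ℝ f
    intro p hp
    obtain ⟨q, hq⟩ := Ideal.mem_span_singleton.1 hm
    have h1 := congrArg (eval p) hq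
    rw [map_pow, map_mul, hp, zero_mul] at h1
    exact eq_zero_of_pow_eq_zero h1
  · intro F hF p hp
    obtain ⟨q, rfl⟩ := dvd_of_vanish ℂ F (fun r hr => hF r (by
      intro f hf
      obtain ⟨q, rfl⟩ := Ideal.mem_span_singleton.1 hf
      rw [map_mul, hr, zero_mul]))
    have h1 : aeval p (g ℝ) = 0 := hp _ (Ideal.mem_span_singleton_self _)
    have h2 : eval p (g ℂ) = aeval p (g ℝ) := by
      simp only [g, map_add, map_mul, map_pow, eval_X, aeval_X]
    rw [map_mul, h2, h1, zero_mul]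

/-- the class of a polynomial -/
noncomputable def mk (f : MvPolynomial (Fin 4) ℝ) : Coord I := Ideal.Quotient.mkₐ ℝ I f

theorem ev_mk (p : realCone I) (f : MvPolynomial (Fin 4) ℝ) : ev I p (mk f) = eval p.1 f := rfl

/-- the binary quadratic form `a x₀² + b x₀ x₁ + c x₁²` -/
noncomputable def q2 (a b c : ℝ) : MvPolynomial (Fin 4) ℝ :=
  C a * X 0 ^ 2 + C b * (X 0 * X 1) + C c * X 1 ^ 2

theorem q2_homog (a b c : ℝ) : (q2 a b c).IsHomogeneous 2 := by
  have hX : ∀ v : Fin 4, (X v : MvPolynomial (Fin 4) ℝ).IsHomogeneous 1 :=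
    fun v => isHomogeneous_X ℝ v
  have h1 : (C a * X 0 ^ 2 : MvPolynomial (Fin 4) ℝ).IsHomogeneous (0 + 2) :=
    (isHomogeneous_C _ _).mul ((hX 0).pow 2)
  have h2 : (C b * (X 0 * X 1) : MvPolynomial (Fin 4) ℝ).IsHomogeneous (0 + 2) :=
    (isHomogeneous_C _ _).mul ((hX 0).mul (hX 1))
  have h3 : (C c * X 1 ^ 2 : MvPolynomial (Fin 4) ℝ).IsHomogeneous (0 + 2) :=
    (isHomogeneous_C _ _).mul ((hX 1).pow 2)
  exact (h1.add h2).add h3

/-- its class in `ℝ[X]₂` -/
noncomputable def Q (a b c : ℝ) : gr I 2 :=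
  ⟨mk (q2 a b c), Submodule.mem_map_of_mem (q2_homog a b c)⟩

theorem ev_Q (p : realCone I) (a b c : ℝ) : ev I p (Q a b c) =
    a * p.1 0 ^ 2 + b * (p.1 0 * p.1 1) + c * p.1 1 ^ 2 := by
  have : ev I p (Q a b c) = eval p.1 (q2 a b c) := rfl
  rw [this, q2]
  simp only [map_add, map_mul, map_pow, eval_X, eval_C]

theorem Q_add (a b c a' b' c' : ℝ) : Q a b c + Q a' b' c' = Q (a + a') (b + b') (c + c') := by
  apply Subtype.ext
  have : q2 (a + a') (b + b') (c + c') = q2 a b c + q2 a' b' c' := by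
    simp only [q2, map_add]; ring
  change mk _ + mk _ = mk _
  rw [this]
  exact (map_add (Ideal.Quotient.mkₐ ℝ I) _ _).symm

theorem Q_smul (r a b c : ℝ) : r • Q a b c = Q (r * a) (r * b) (r * c) := by
  apply Subtype.ext
  have : q2 (r * a) (r * b) (r * c) = r • q2 a b c := by
    rw [smul_eq_C_mul]
    simp only [q2, map_mul]; ring
  change r • mk _ = mk _
  rw [this]
  exact (map_smul (Ideal.Quotient.mkₐ ℝ I) _ _).symm

/-- the submodule of the classes of binary forms in `x₀, x₁` -/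
noncomputable def W : Submodule ℝ (gr I 2) where
  carrier := {F | ∃ a b c, F = Q a b c}
  zero_mem' := ⟨0, 0, 0, by
    have h := Q_smul 0 0 0 0
    rw [zero_smul] at h
    rw [h]
    simp⟩
  add_mem' := by
    rintro _ _ ⟨a, b, c, rfl⟩ ⟨a', b', c', rfl⟩
    exact ⟨_, _, _, Q_add _ _ _ _ _ _⟩
  smul_mem' := by
    rintro r _ ⟨a, b, c, rfl⟩
    exact ⟨_, _, _, Q_smul _ _ _ _⟩

/-- The face: the nonnegative quadrics which vanish on the line `x₀ = x₁ = 0`. -/
def face : Set (gr I 2) :=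
  {F | F ∈ nonnegCone I ∧ ∀ p : realCone I, p.1 0 = 0 → p.1 1 = 0 → ev I p F = 0}

theorem isFace : IsFace I face := by
  constructor
  · intro x hx y hy a b ha hb _
    constructor
    · intro p
      have h1 := hx.1 p
      have h2 := hy.1 p
      have : ev I p ((a • x + b • y : gr I 2) : Coord I) = a * ev I p x + b * ev I p y := by
        rw [Submodule.coe_add, Submodule.coe_smul, Submodule.coe_smul, map_add, map_smul,
          map_smul, smul_eq_mul, smul_eq_mul]
      rw [this]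
      positivity
    · intro p h0 h1
      have : ev I p ((a • x + b • y : gr I 2) : Coord I) = a * ev I p x + b * ev I p y := by
        rw [Submodule.coe_add, Submodule.coe_smul, Submodule.coe_smul, map_add, map_smul,
          map_smul, smul_eq_mul, smul_eq_mul]
      rw [this, hx.2 p h0 h1, hy.2 p h0 h1]
      simp
  · constructor
    · intro x hx
      exact hx.1
    · rintro x hx y hy z hz ⟨a, b, ha, hb, _, rfl⟩
      refine ⟨hx, fun p h0 h1 => ?_⟩
      have h2 := hz.2 p h0 h1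
      have : ev I p ((a • x + b • y : gr I 2) : Coord I) = a * ev I p x + b * ev I p y := by
        rw [Submodule.coe_add, Submodule.coe_smul, Submodule.coe_smul, map_add, map_smul,
          map_smul, smul_eq_mul, smul_eq_mul]
      rw [this] at h2
      have h3 := hx p
      have h4 := hy p
      have h5 : 0 ≤ b * ev I p y := by positivity
      have h6 : a * ev I p x ≤ 0 := by linarith
      nlinarith

theorem sign (p : realCone I) : p.1 0 * p.1 1 ≤ 0 := by
  have h := (mem_realCone p.1).1 p.2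
  by_contra hcon
  push Not at hcon
  have h0 : p.1 0 ≠ 0 := by
    intro h0
    rw [h0, zero_mul] at hcon
    exact lt_irrefl _ hcon
  have h1 : p.1 0 * p.1 1 * p.1 2 ^ 2 + p.1 0 ^ 2 * p.1 3 ^ 2 + p.1 0 ^ 4 = 0 := by
    linear_combination p.1 0 * h
  have h2 : 0 < p.1 0 ^ 4 := by positivity
  have h3 : 0 ≤ p.1 0 * p.1 1 * p.1 2 ^ 2 := by positivity
  have h4 : 0 ≤ p.1 0 ^ 2 * p.1 3 ^ 2 := by positivity
  linarith

theorem Q_mem_face (a b c : ℝ) (ha : 1 / 2 < a) (hb : b < 1) (hc : 1 / 2 < c) :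
    Q a b c ∈ face := by
  constructor
  · intro p
    rw [ev_Q]
    have h := sign p
    nlinarith [sq_nonneg (p.1 0 + p.1 1), sq_nonneg (p.1 0), sq_nonneg (p.1 1),
      mul_nonneg (sub_nonneg.2 ha.le) (sq_nonneg (p.1 0)),
      mul_nonneg (sub_nonneg.2 hc.le) (sq_nonneg (p.1 1)),
      mul_nonneg (sub_nonneg.2 hb.le) (neg_nonneg.2 h)]
  · intro p h0 h1
    rw [ev_Q, h0, h1]
    ring

theorem mem_p1 : (![1, -1, 1, 0] : Fin 4 → ℝ) ∈ realCone I := by
  rw [mem_realCone]
  simp

theorem mem_p2 : (![1, -4, 1 / 2, 0] : Fin 4 → ℝ) ∈ realCone I := by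
  rw [mem_realCone]
  simp only [Matrix.cons_val]
  norm_num

theorem mem_p3 : (![0, 1, 0, 0] : Fin 4 → ℝ) ∈ realCone I := by
  rw [mem_realCone]
  simp

/-- evaluation at a point, on `ℝ[X]₂` -/
noncomputable def evl (p : realCone I) : gr I 2 →ₗ[ℝ] ℝ :=
  (ev I p).toLinearMap ∘ₗ (gr I 2).subtype

/-- coefficient functionals -/
noncomputable def cc : gr I 2 →ₗ[ℝ] ℝ := evl ⟨_, mem_p3⟩

noncomputable def cb : gr I 2 →ₗ[ℝ] ℝ :=
  (1 / 3 : ℝ) • (evl ⟨_, mem_p1⟩ - evl ⟨_, mem_p2⟩ + (15 : ℝ) • evl ⟨_, mem_p3⟩)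

noncomputable def ca : gr I 2 →ₗ[ℝ] ℝ := cb + evl ⟨_, mem_p1⟩ - evl ⟨_, mem_p3⟩

theorem evl_Q (p : realCone I) (a b c : ℝ) : evl p (Q a b c) =
    a * p.1 0 ^ 2 + b * (p.1 0 * p.1 1) + c * p.1 1 ^ 2 := ev_Q p a b c

theorem cc_Q (a b c : ℝ) : cc (Q a b c) = c := by
  rw [cc, evl_Q]
  simp

theorem cb_Q (a b c : ℝ) : cb (Q a b c) = b := by
  rw [cb, LinearMap.smul_apply, LinearMap.add_apply, LinearMap.sub_apply, LinearMap.smul_apply,
    evl_Q, evl_Q, evl_Q]
  simp only [Matrix.cons_val, smul_eq_mul]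
  ring

theorem ca_Q (a b c : ℝ) : ca (Q a b c) = a := by
  rw [ca, LinearMap.sub_apply, LinearMap.add_apply, cb_Q, evl_Q, evl_Q]
  simp only [Matrix.cons_val]
  ring

theorem quad_expand (q : MvPolynomial (Fin 4) ℝ) (hq : q.IsHomogeneous 2) :
    ∃ A : Fin 4 → Fin 4 → ℝ, q = ∑ i, ∑ j, C (A i j) * (X i * X j) := by
  classical
  have key : ∀ t : Finset (Fin 4 →₀ ℕ), (∀ d ∈ t, d.degree = 2) →
      ∃ A : Fin 4 → Fin 4 → ℝ, ∑ d ∈ t, monomial d (coeff d q) =
        ∑ i, ∑ j, C (A i j) * (X i * X j) := by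
    intro t
    induction t using Finset.induction_on with
    | empty => intro _; exact ⟨0, by simp⟩
    | insert d t hd ih =>
      intro ht
      obtain ⟨A, hA⟩ := ih fun d' hd' => ht d' (Finset.mem_insert_of_mem hd')
      have hdeg := ht d (Finset.mem_insert_self _ _)
      obtain ⟨i, j, hij⟩ : ∃ i j : Fin 4, d = Finsupp.single i 1 + Finsupp.single j 1 := by
        have h1 : d ≠ 0 := by rintro rfl; simp at hdeg
        obtain ⟨i, hi⟩ : ∃ i, d i ≠ 0 := by
          by_contra hcon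
          push Not at hcon
          exact h1 (Finsupp.ext hcon)
        obtain ⟨d', hd'⟩ : ∃ d' : Fin 4 →₀ ℕ, d' = d - Finsupp.single i 1 := ⟨_, rfl⟩
        have h2 : d = Finsupp.single i 1 + d' := by
          rw [hd', add_tsub_cancel_of_le]
          rw [Finsupp.single_le_iff]
          omega
        have h3 : Finsupp.degree d' = 1 := by
          have h4 := congrArg Finsupp.degree h2
          rw [map_add, Finsupp.degree_single, hdeg] at h4
          omega
        have h5 : d' ≠ 0 := by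
          intro h; rw [h] at h3; simp at h3
        obtain ⟨j, hj⟩ : ∃ j, d' j ≠ 0 := by
          by_contra hcon
          push Not at hcon
          exact h5 (Finsupp.ext hcon)
        obtain ⟨d'', hd''⟩ : ∃ d'' : Fin 4 →₀ ℕ, d'' = d' - Finsupp.single j 1 := ⟨_, rfl⟩
        have h6 : d' = Finsupp.single j 1 + d'' := by
          rw [hd'', add_tsub_cancel_of_le]
          rw [Finsupp.single_le_iff]
          omega
        have h7 : Finsupp.degree d'' = 0 := by
          have h4 := congrArg Finsupp.degree h6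
          rw [map_add, Finsupp.degree_single, h3] at h4
          omega
        rw [Finsupp.degree_eq_zero_iff] at h7
        rw [h7, add_zero] at h6
        exact ⟨i, j, by rw [← h6]; exact h2⟩
      refine ⟨fun i' j' => A i' j' + if i' = i ∧ j' = j then coeff d q else 0, ?_⟩
      rw [Finset.sum_insert hd, hA]
      have h8 : (monomial d (coeff d q) : MvPolynomial (Fin 4) ℝ) =
          C (coeff d q) * (X i * X j) := by
        rw [X, X, monomial_mul, one_mul, C_mul_monomial, mul_one, ← hij]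
      have h9 : ∑ i' : Fin 4, ∑ j' : Fin 4, C (if i' = i ∧ j' = j then coeff d q else 0) *
          (X i' * X j' : MvPolynomial (Fin 4) ℝ) = C (coeff d q) * (X i * X j) := by
        rw [Finset.sum_eq_single i, Finset.sum_eq_single j]
        · simp
        · intro j' _ hj'; simp [hj']
        · intro h; exact absurd (Finset.mem_univ _) h
        · intro i' _ hi'
          apply Finset.sum_eq_zero
          intro j' _
          simp [hi']
        · intro h; exact absurd (Finset.mem_univ _) h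
      rw [h8, ← h9, ← Finset.sum_add_distrib]
      refine Finset.sum_congr rfl fun i' _ => ?_
      rw [← Finset.sum_add_distrib]
      refine Finset.sum_congr rfl fun j' _ => ?_
      rw [map_add, add_mul, add_comm]
  obtain ⟨A, hA⟩ := key q.support (by
    intro d hd
    have h1 := hq (mem_support_iff.1 hd)
    have h2 : Finsupp.degree d = Finsupp.weight (1 : Fin 4 → ℕ) d :=
      DFunLike.congr_fun Finsupp.degree_eq_weight_one d
    rw [h2]
    exact h1)
  exact ⟨A, by rw [← hA]; exact q.as_sum⟩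

theorem cubic_zero (α β c : ℝ) (h : ∀ a : ℝ, 0 ≤ α * a ^ 3 + c * a ^ 2 + β * a) :
    α = 0 ∧ β = 0 := by
  have h1 : ∀ a : ℝ, 0 < a → |α * a ^ 2 + β| ≤ c * a := by
    intro a ha
    rw [abs_le]
    have h2 := h a
    have h3 := h (-a)
    constructor
    · have : 0 ≤ a * (α * a ^ 2 + β + c * a) := by nlinarith
      have := nonneg_of_mul_nonneg_right this ha
      linarith
    · have : 0 ≤ a * (c * a - (α * a ^ 2 + β)) := by nlinarith
      have := nonneg_of_mul_nonneg_right this ha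
      linarith
  have hc : 0 ≤ c := by
    have := (abs_nonneg _).trans (h1 1 one_pos)
    linarith
  have hβ : β = 0 := by
    by_contra hne
    have hpos : 0 < |β| := abs_pos.2 hne
    have hden : 0 < |α| + c + 1 := by positivity
    obtain ⟨a, ha⟩ : ∃ a, a = min 1 (|β| / (2 * (|α| + c + 1))) := ⟨_, rfl⟩
    have ha0 : 0 < a := by rw [ha]; positivity
    have ha1 : a ≤ 1 := by rw [ha]; exact min_le_left _ _
    have ha2 : a * (2 * (|α| + c + 1)) ≤ |β| := by
      have : a ≤ |β| / (2 * (|α| + c + 1)) := by rw [ha]; exact min_le_right _ _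
      rwa [le_div_iff₀ (by positivity)] at this
    have h2 := h1 a ha0
    have h3 : |β| ≤ |α * a ^ 2 + β| + |α * a ^ 2| := by
      have := abs_sub (α * a ^ 2 + β) (α * a ^ 2)
      rwa [add_sub_cancel_left] at this
    have h4 : |α * a ^ 2| ≤ |α| * a := by
      rw [abs_mul, abs_of_nonneg (sq_nonneg a)]
      apply mul_le_mul_of_nonneg_left _ (abs_nonneg α)
      nlinarith
    nlinarith
  refine ⟨?_, hβ⟩
  by_contra hne
  have hpos : 0 < |α| := abs_pos.2 hne
  have ha0 : 0 < (c + 1) / |α| := by positivity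
  have h2 := h1 ((c + 1) / |α|) ha0
  rw [hβ, add_zero, abs_mul, abs_of_nonneg (sq_nonneg ((c + 1) / |α|))] at h2
  have h3 : |α| * ((c + 1) / |α|) ^ 2 = (c + 1) * ((c + 1) / |α|) := by
    field_simp
  rw [h3] at h2
  nlinarith

/-- the points of a conic in `X` -/
noncomputable def pt (s a : ℝ) : Fin 4 → ℝ :=
  ![a, -(s ^ 2) * a, (a ^ 2 + 1) / (2 * s), (a ^ 2 - 1) / 2]

theorem pt_mem (s a : ℝ) (hs : s ≠ 0) : pt s a ∈ realCone I := by
  rw [mem_realCone, pt]
  simp only [Matrix.cons_val]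
  field_simp
  ring

theorem face_sub : face ⊆ W := by
  rintro F ⟨hF1, hF2⟩
  obtain ⟨q, hq, hqF⟩ := Submodule.mem_map.1 F.2
  have hq : q.IsHomogeneous 2 := hq
  have hqF : mk q = F := hqF
  obtain ⟨A, hA⟩ := quad_expand q hq
  have hev : ∀ p : realCone I, ev I p F = ∑ i, ∑ j, A i j * (p.1 i * p.1 j) := by
    intro p
    rw [← hqF, ev_mk, hA]
    simp only [map_sum, map_mul, eval_C, eval_X]
  have m1 : (![0, 0, 1, 0] : Fin 4 → ℝ) ∈ realCone I := by rw [mem_realCone]; simp
  have m2 : (![0, 0, 0, 1] : Fin 4 → ℝ) ∈ realCone I := by rw [mem_realCone]; simp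
  have m3 : (![0, 0, 1, 1] : Fin 4 → ℝ) ∈ realCone I := by rw [mem_realCone]; simp
  have h1 := hF2 ⟨_, m1⟩ rfl rfl
  have h2 := hF2 ⟨_, m2⟩ rfl rfl
  have h3 := hF2 ⟨_, m3⟩ rfl rfl
  rw [hev] at h1 h2 h3
  simp only [Fin.sum_univ_four, Matrix.cons_val, mul_zero, mul_one, zero_mul, one_mul, add_zero,
    zero_add] at h1 h2 h3
  have hpt : ∀ s : ℝ, s ≠ 0 → ∀ a : ℝ, 0 ≤
      ((A 0 2 + A 2 0 - s ^ 2 * (A 1 2 + A 2 1)) / (2 * s) +
        (A 0 3 + A 3 0 - s ^ 2 * (A 1 3 + A 3 1)) / 2) * a ^ 3 +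
      (A 0 0 - s ^ 2 * (A 0 1 + A 1 0) + s ^ 4 * A 1 1) * a ^ 2 +
      ((A 0 2 + A 2 0 - s ^ 2 * (A 1 2 + A 2 1)) / (2 * s) -
        (A 0 3 + A 3 0 - s ^ 2 * (A 1 3 + A 3 1)) / 2) * a := by
    intro s hs a
    have h4 := hF1 ⟨_, pt_mem s a hs⟩
    rw [hev] at h4
    simp only [Fin.sum_univ_four, pt, Matrix.cons_val] at h4
    have h33 : A 3 3 = 0 := h2
    have h22 : A 2 2 = 0 := h1
    have h23 : A 2 3 = - A 3 2 := by linarith
    rw [h33, h22, h23] at h4
    refine h4.trans (le_of_eq ?_)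
    field_simp
    ring
  have k1 := cubic_zero _ _ _ (hpt 1 one_ne_zero)
  have k2 := cubic_zero _ _ _ (hpt 2 two_ne_zero)
  obtain ⟨k1a, k1b⟩ := k1
  obtain ⟨k2a, k2b⟩ := k2
  have u1 : A 0 2 + A 2 0 = 0 := by linarith
  have u2 : A 1 2 + A 2 1 = 0 := by linarith
  have u3 : A 0 3 + A 3 0 = 0 := by linarith
  have u4 : A 1 3 + A 3 1 = 0 := by linarith
  have u5 : A 2 3 + A 3 2 = 0 := by linarith
  refine ⟨A 0 0, A 0 1 + A 1 0, A 1 1, ?_⟩
  apply Subtype.ext
  change (F : Coord I) = mk _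
  rw [← hqF, hA]
  congr 1
  rw [q2]
  have c1 : (C (A 0 2) + C (A 2 0) : MvPolynomial (Fin 4) ℝ) = 0 := by rw [← map_add, u1, map_zero]
  have c2 : (C (A 1 2) + C (A 2 1) : MvPolynomial (Fin 4) ℝ) = 0 := by rw [← map_add, u2, map_zero]
  have c3 : (C (A 0 3) + C (A 3 0) : MvPolynomial (Fin 4) ℝ) = 0 := by rw [← map_add, u3, map_zero]
  have c4 : (C (A 1 3) + C (A 3 1) : MvPolynomial (Fin 4) ℝ) = 0 := by rw [← map_add, u4, map_zero]
  have c5 : (C (A 2 3) + C (A 3 2) : MvPolynomial (Fin 4) ℝ) = 0 := by rw [← map_add, u5, map_zero]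
  have c6 : (C (A 2 2) : MvPolynomial (Fin 4) ℝ) = 0 := by rw [h1, map_zero]
  have c7 : (C (A 3 3) : MvPolynomial (Fin 4) ℝ) = 0 := by rw [h2, map_zero]
  simp only [Fin.sum_univ_four, map_add]
  linear_combination X 0 * X 2 * c1 + X 1 * X 2 * c2 + X 0 * X 3 * c3 + X 1 * X 3 * c4 +
    X 2 * X 3 * c5 + X 2 ^ 2 * c6 + X 3 ^ 2 * c7

theorem Q_mem_relInterior (a b c : ℝ) (ha : 1 / 2 < a) (hb : b < 1) (hc : 1 / 2 < c) :
    Q a b c ∈ relInterior I face := by
  letI : TopologicalSpace (gr I 2) := moduleTopology ℝ (gr I 2)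
  haveI : IsModuleTopology ℝ (gr I 2) := ⟨rfl⟩
  have hca : Continuous ca := IsModuleTopology.continuous_of_linearMap ca
  have hcb : Continuous cb := IsModuleTopology.continuous_of_linearMap cb
  have hcc : Continuous cc := IsModuleTopology.continuous_of_linearMap cc
  change Q a b c ∈ intrinsicInterior ℝ face
  rw [mem_intrinsicInterior]
  have hmem : Q a b c ∈ affineSpan ℝ face := subset_affineSpan ℝ face (Q_mem_face a b c ha hb hc)
  refine ⟨⟨Q a b c, hmem⟩, ?_, rfl⟩
  rw [mem_interior]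
  refine ⟨(fun x : affineSpan ℝ face => (x : gr I 2)) ⁻¹'
    ({F | 1 / 2 < ca F} ∩ {F | cb F < 1} ∩ {F | 1 / 2 < cc F}), ?_, ?_, ?_⟩
  · rintro ⟨F, hF⟩ ⟨⟨h1, h2⟩, h3⟩
    have hW : F ∈ W := by
      have h4 : affineSpan ℝ face ≤ W.toAffineSubspace :=
        affineSpan_le.2 face_sub
      exact h4 hF
    obtain ⟨a', b', c', rfl⟩ := hW
    rw [Set.mem_setOf_eq, ca_Q] at h1
    rw [Set.mem_setOf_eq, cb_Q] at h2
    rw [Set.mem_setOf_eq, cc_Q] at h3
    exact Q_mem_face a' b' c' h1 h2 h3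
  · apply IsOpen.preimage continuous_subtype_val
    exact ((isOpen_lt continuous_const hca).inter (isOpen_lt hcb continuous_const)).inter
      (isOpen_lt continuous_const hcc)
  · refine ⟨⟨?_, ?_⟩, ?_⟩
    · rw [Set.mem_setOf_eq, ca_Q]; exact ha
    · rw [Set.mem_setOf_eq, cb_Q]; exact hb
    · rw [Set.mem_setOf_eq, cc_Q]; exact hc

theorem eval_scale (h : MvPolynomial (Fin 4) ℝ) (k : ℕ) (hh : h.IsHomogeneous k) (c : ℝ)
    (p : Fin 4 → ℝ) : eval (fun i => c * p i) h = c ^ k * eval p h := by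
  rw [eval_eq', eval_eq', Finset.mul_sum]
  refine Finset.sum_congr rfl fun d hd => ?_
  have h1 : ∑ i, d i = k := by
    have h2 := hh (mem_support_iff.1 hd)
    have h3 : Finsupp.degree d = Finsupp.weight (1 : Fin 4 → ℕ) d :=
      DFunLike.congr_fun Finsupp.degree_eq_weight_one d
    have h4 : Finsupp.weight (1 : Fin 4 → ℕ) d = k := h2
    rw [← h4, ← h3, Finsupp.degree_eq_sum]
  simp only [mul_pow, Finset.prod_mul_distrib, Finset.prod_pow_eq_pow_sum]
  rw [h1]
  ring

theorem const_of_sum_sq {r : ℕ} (R : Fin r → Polynomial ℝ) (c : ℝ)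
    (h : ∑ i, R i ^ 2 = Polynomial.C c) (i : Fin r) : ∃ a, R i = Polynomial.C a := by
  refine ⟨(R i).coeff 0, Polynomial.eq_C_of_degree_le_zero ?_⟩
  rw [← Polynomial.isBoundedUnder_abs_atTop_iff]
  refine ⟨c + 1, ?_⟩
  rw [Filter.eventually_map]
  refine Filter.Eventually.of_forall fun x => ?_
  have h1 := congrArg (Polynomial.eval x) h
  rw [Polynomial.eval_finset_sum, Polynomial.eval_C] at h1
  have h2 : Polynomial.eval x (R i ^ 2) ≤ c := by
    rw [← h1]
    exact Finset.single_le_sum (f := fun i => Polynomial.eval x (R i ^ 2))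
      (fun j _ => by simp only [Polynomial.eval_pow]; exact sq_nonneg _) (Finset.mem_univ i)
  rw [Polynomial.eval_pow] at h2
  have h3 : |Polynomial.eval x (R i)| ^ 2 = Polynomial.eval x (R i) ^ 2 := sq_abs _
  nlinarith [sq_nonneg (|Polynomial.eval x (R i)| - 1)]

theorem symm_of_sum_sq {r : ℕ} (k : ℕ) : ∀ (R : Fin r → Polynomial ℝ) (c : ℝ),
    ∑ i, R i ^ 2 = Polynomial.C c * Polynomial.X ^ (2 * k) →
    ∀ i, (R i).eval (-1) = (-1) ^ k * (R i).eval 1 := by
  induction k with
  | zero =>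
    intro R c h i
    rw [mul_zero, pow_zero, mul_one] at h
    obtain ⟨a, ha⟩ := const_of_sum_sq R c h i
    rw [ha]
    simp
  | succ k ih =>
    intro R c h
    have h0 : ∀ i, (R i).coeff 0 = 0 := by
      have h1 := congrArg (Polynomial.eval 0) h
      rw [Polynomial.eval_finset_sum] at h1
      simp only [Polynomial.eval_pow, Polynomial.eval_mul, Polynomial.eval_X,
        Polynomial.eval_C] at h1
      rw [zero_pow (by omega), mul_zero] at h1
      intro i
      have h2 := (Finset.sum_eq_zero_iff_of_nonneg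
        (fun i _ => sq_nonneg (Polynomial.eval 0 (R i)))).1 h1 i (Finset.mem_univ i)
      rw [Polynomial.coeff_zero_eq_eval_zero]
      exact pow_eq_zero_iff two_ne_zero |>.1 h2
    choose R' hR' using fun i => Polynomial.X_dvd_iff.2 (h0 i)
    have h2 : ∑ i, R' i ^ 2 = Polynomial.C c * Polynomial.X ^ (2 * k) := by
      have h3 : ∑ i, R i ^ 2 = Polynomial.X ^ 2 * ∑ i, R' i ^ 2 := by
        rw [Finset.mul_sum]
        refine Finset.sum_congr rfl fun i _ => ?_
        rw [hR' i]; ring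
      have h4 : (Polynomial.X : Polynomial ℝ) ^ 2 * ∑ i, R' i ^ 2 =
          Polynomial.X ^ 2 * (Polynomial.C c * Polynomial.X ^ (2 * k)) := by
        rw [← h3, h]; ring
      exact mul_left_cancel₀ (pow_ne_zero _ Polynomial.X_ne_zero) h4
    intro i
    have h5 := ih R' c h2 i
    rw [hR' i]
    simp only [Polynomial.eval_mul, Polynomial.eval_X]
    rw [h5]
    ring

theorem eval_aeval (v : Fin 4 → Polynomial ℝ) (h : MvPolynomial (Fin 4) ℝ) (a : ℝ) :
    Polynomial.eval a (aeval v h) = eval (fun j => (v j).eval a) h := by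
  induction h using MvPolynomial.induction_on with
  | C c => simp
  | add p q hp hq => rw [map_add, Polynomial.eval_add, hp, hq, map_add]
  | mul_X p i hp => rw [map_mul, Polynomial.eval_mul, hp, aeval_X, map_mul, eval_X]

theorem curve_mem (s : ℝ) : (![s, -s ^ 3, 1, 0] : Fin 4 → ℝ) ∈ realCone I := by
  rw [mem_realCone]
  simp only [Matrix.cons_val]
  ring

theorem stubborn : Stubborn I (Q 1 (-3) 1) := by
  refine ⟨(Q_mem_face 1 (-3) 1 (by norm_num) (by norm_num) (by norm_num)).1, ?_⟩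
  rintro k hk ⟨r, G, hG, hsum⟩
  choose h hh hhG using fun i => Submodule.mem_map.1 (hG i)
  have hh : ∀ i, (h i).IsHomogeneous k := hh
  have hhG : ∀ i, mk (h i) = G i := hhG
  have hval : ∀ p : Fin 4 → ℝ, p ∈ realCone I →
      ∑ i, eval p (h i) ^ 2 = (p 0 ^ 2 - 3 * (p 0 * p 1) + p 1 ^ 2) ^ k := by
    intro p hp
    have h1 := congrArg (ev I ⟨p, hp⟩) hsum
    rw [map_pow, map_sum, ev_Q] at h1
    have h2 : ∀ i, ev I ⟨p, hp⟩ (G i ^ 2) = eval p (h i) ^ 2 := by
      intro i
      rw [map_pow, ← hhG i, ev_mk]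
    rw [Finset.sum_congr rfl fun i _ => h2 i] at h1
    rw [← h1]
    congr 1
    ring
  -- the values at two points on the two branches of a hyperbola
  have hopp : ∀ s : ℝ, s ≠ 0 → ∀ i, eval (pt s (-1)) (h i) = - eval (pt s 1) (h i) := by
    intro s hs
    let R : Fin r → Polynomial ℝ := fun i => aeval (![Polynomial.X,
      -(Polynomial.C (s ^ 2)) * Polynomial.X,
      Polynomial.C (1 / (2 * s)) * (Polynomial.X ^ 2 + 1),
      Polynomial.C (1 / 2) * (Polynomial.X ^ 2 - 1)] : Fin 4 → Polynomial ℝ) (h i)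
    have hR : ∀ i a, (R i).eval a = eval (pt s a) (h i) := by
      intro i a
      simp only [R]
      rw [eval_aeval]
      congr 1
      congr 1
      funext j
      fin_cases j
      · simp [pt]
      · simp [pt]
      · simp [pt]
        ring
      · simp [pt]
        ring
    have hRsum : ∑ i, R i ^ 2 = Polynomial.C ((1 + 3 * s ^ 2 + s ^ 4) ^ k) *
        Polynomial.X ^ (2 * k) := by
      apply Polynomial.funext
      intro a
      rw [Polynomial.eval_finset_sum]
      simp only [Polynomial.eval_pow, Polynomial.eval_mul, Polynomial.eval_X, Polynomial.eval_C,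
        hR]
      rw [hval _ (pt_mem s a hs), pow_mul, ← mul_pow]
      congr 1
      simp only [pt, Matrix.cons_val]
      ring
    intro i
    have h1 := symm_of_sum_sq k R _ hRsum i
    rw [hR, hR, hk.neg_one_pow] at h1
    rw [h1]
    ring
  let P : Fin r → Polynomial ℝ := fun i => aeval (![Polynomial.X, -Polynomial.X ^ 3, 1, 0] :
    Fin 4 → Polynomial ℝ) (h i)
  have hP : ∀ i a, (P i).eval a = eval (![a, -a ^ 3, 1, 0] : Fin 4 → ℝ) (h i) := by
    intro i a
    simp only [P]
    rw [eval_aeval]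
    congr 1
    congr 1
    funext j
    fin_cases j <;> simp
  have hPsum : ∑ i, P i ^ 2 = (Polynomial.X ^ 2 + 3 * Polynomial.X ^ 4 + Polynomial.X ^ 6) ^ k := by
    apply Polynomial.funext
    intro a
    rw [Polynomial.eval_finset_sum]
    simp only [Polynomial.eval_pow, hP]
    rw [hval _ (curve_mem a)]
    simp only [Matrix.cons_val, Polynomial.eval_add, Polynomial.eval_pow, Polynomial.eval_mul,
      Polynomial.eval_X, Polynomial.eval_ofNat]
    congr 1
    ring
  have hPodd : ∀ i, (P i).comp (-Polynomial.X) = - P i := by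
    intro i
    apply Polynomial.eq_of_infinite_eval_eq
    apply (Set.Ioi_infinite (0 : ℝ)).mono
    intro s hs
    have hs0 : s ≠ 0 := (Set.mem_Ioi.1 hs).ne'
    rw [Set.mem_setOf_eq, Polynomial.eval_comp, Polynomial.eval_neg, Polynomial.eval_neg,
      Polynomial.eval_X, hP, hP]
    have e1 : (![-s, -(-s) ^ 3, 1, 0] : Fin 4 → ℝ) = fun j => s * pt s (-1) j := by
      funext j
      fin_cases j
      · simp [pt]
      · simp [pt]
        ring
      · simp [pt]
        field_simp
        norm_num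
      · simp [pt]
    have e2 : (![s, -s ^ 3, 1, 0] : Fin 4 → ℝ) = fun j => s * pt s 1 j := by
      funext j
      fin_cases j
      · simp [pt]
      · simp [pt]
        ring
      · simp [pt]
        field_simp
        norm_num
      · simp [pt]
    rw [e1, e2, eval_scale _ k (hh i), eval_scale _ k (hh i), hopp s hs0]
    ring
  -- evaluate at the imaginary unit
  have hre : ∀ i, ((Polynomial.aeval Complex.I (P i)) ^ 2 : ℂ).re ≤ 0 := by
    intro i
    obtain ⟨z, hz⟩ : ∃ z : ℂ, z = Polynomial.aeval Complex.I (P i) := ⟨_, rfl⟩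
    have h1 : (starRingEnd ℂ) z = -z := by
      rw [hz]
      have h2 : (starRingEnd ℂ) (Polynomial.aeval Complex.I (P i)) =
          Polynomial.aeval ((starRingEnd ℂ) Complex.I) (P i) := by
        exact (Polynomial.aeval_conj (P i) Complex.I).symm
      have h3 := congrArg (Polynomial.aeval Complex.I) (hPodd i)
      rw [Polynomial.aeval_comp, map_neg, map_neg, Polynomial.aeval_X] at h3
      rw [h2, Complex.conj_I, h3]
    have h2 : z.re = 0 := by
      have := congrArg Complex.re h1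
      rw [Complex.conj_re, Complex.neg_re] at this
      linarith
    rw [← hz, pow_two, Complex.mul_re, h2]
    nlinarith [sq_nonneg z.im]
  have h1 := congrArg (Polynomial.aeval Complex.I) hPsum
  rw [map_sum] at h1
  simp only [map_pow, map_add, map_mul, Polynomial.aeval_X, map_ofNat] at h1
  have h2 : (Complex.I ^ 2 + 3 * Complex.I ^ 4 + Complex.I ^ 6 : ℂ) = 1 := by
    have e4 : (Complex.I ^ 4 : ℂ) = 1 := Complex.I_pow_four
    have e6 : (Complex.I ^ 6 : ℂ) = -1 := by
      rw [show (6 : ℕ) = 4 + 2 by norm_num, pow_add, e4, Complex.I_sq]; ring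
    rw [e4, e6, Complex.I_sq]
    ring
  rw [h2, one_pow] at h1
  have h3 := congrArg Complex.re h1
  rw [Complex.re_sum, Complex.one_re] at h3
  have h4 : ∑ i, ((Polynomial.aeval Complex.I (P i)) ^ 2 : ℂ).re ≤ 0 :=
    Finset.sum_nonpos fun i _ => hre i
  linarith

theorem not_stubborn : ¬ Stubborn I (Q 1 0 1) := by
  rintro ⟨_, h⟩
  apply h 1 odd_one
  refine ⟨2, ![mk (X 0), mk (X 1)], ?_, ?_⟩
  · intro i
    fin_cases i
    · exact Submodule.mem_map_of_mem (isHomogeneous_X ℝ 0)
    · exact Submodule.mem_map_of_mem (isHomogeneous_X ℝ 1)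
  · rw [Fin.sum_univ_two, pow_one]
    have : q2 1 0 1 = X 0 ^ 2 + X 1 ^ 2 := by
      simp [q2]
    change mk (q2 1 0 1) = mk (X 0) ^ 2 + mk (X 1) ^ 2
    rw [this]
    rfl

/-- There are a totally real variety `X` and a face of `P_X` whose relative interior contains both
a stubborn and a non-stubborn quadric. -/
theorem result : ¬ ∀ (n : ℕ) (I : Ideal (MvPolynomial (Fin (n + 1)) ℝ)), TotallyReal I →
    ∀ A : Set (gr I 2), IsFace I A →
      (∀ F ∈ relInterior I A, Stubborn I F) ∨ (∀ F ∈ relInterior I A, ¬ Stubborn I F) := by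
  intro h
  rcases h 3 I totallyReal face isFace with h1 | h1
  · exact not_stubborn (h1 _ (Q_mem_relInterior 1 0 1 (by norm_num) (by norm_num) (by norm_num)))
  · exact h1 _ (Q_mem_relInterior 1 (-3) 1 (by norm_num) (by norm_num) (by norm_num)) stubborn

end Pool.Agent.Results.MP_982b0b_ag.MixedFace
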